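import Mathlib
import Pool.Agent.H.MP_25f4f2_al.A

set_option autoImplicit false

namespace Pool.Agent.Results.MP_25f4f2_al.Strict

open Pool.Agent.H.MP_25f4f2_al

def IsStrictGKK {n : ℕ} (A : Matrix (Fin n) (Fin n) ℂ) : Prop :=
  (∀ (k : ℕ) (α : Fin k → Fin n), StrictMono α →
    (A.submatrix α α).det.im = 0 ∧ 0 < (A.submatrix α α).det.re) ∧
  ∀ (k : ℕ) (α β : Fin k → Fin n), StrictMono α → StrictMono β →
    (Finset.univ.image α ∩ Finset.univ.image β).card + 1 = k →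
    ((A.submatrix α β).det * (A.submatrix β α).det).im = 0 ∧
      0 < ((A.submatrix α β).det * (A.submatrix β α).det).re

def IsTau {n : ℕ} (A : Matrix (Fin n) (Fin n) ℂ) : Prop :=
  (∀ (k m : ℕ) (α : Fin (k + 1) → Fin n) (β : Fin (m + 1) → Fin n), StrictMono α → StrictMono β →
    Set.range β ⊆ Set.range α →
    ∃ a b : ℝ, IsLeast {x : ℝ | (x : ℂ) ∈ spectrum ℂ (A.submatrix α α)} a ∧
      IsLeast {x : ℝ | (x : ℂ) ∈ spectrum ℂ (A.submatrix β β)} b ∧ a ≤ b) ∧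
  ∀ x : ℝ, (x : ℂ) ∈ spectrum ℂ A → 0 ≤ x

theorem result :
    ∃ (n : ℕ) (A : Matrix (Fin n) (Fin n) ℂ), 1 ≤ n ∧ IsStrictGKK A ∧ IsTau A ∧
      ∃ z ∈ spectrum ℂ A, z.re ≤ 0 :=
  ⟨5, A, by norm_num, ⟨A_pos, A_sign⟩, ⟨A_tau, A_nonneg⟩, A_unstable⟩

end Pool.Agent.Results.MP_25f4f2_al.Strict
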